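import Mathlib
import Pool.Agent.T2H71.Fock.Step

/-!
# Radial derivative characterisation of Fock spaces on `ℂ^n`

For every `n ≥ 1`, `0 < p ≤ ∞`, `α > 0`, `N ≥ 1` and every entire `f` on `ℂ^n`,
`f ∈ F^p_α` if and only if `R^N f / (1 + |z|^2)^N ∈ L^p_α`.
-/

set_option autoImplicit false

open MeasureTheory Metric Set Filter Topology
open scoped ENNReal Real

namespace Pool.Agent.Results.MP_bbe01f_an.RadialDerivativeFock

/-- The radial derivative `R f (z) = ∑ k, z_k ∂f/∂z_k (z)` of a function on `ℂ^n`. -/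
noncomputable def radialDeriv {n : ℕ} (f : EuclideanSpace ℂ (Fin n) → ℂ)
    (z : EuclideanSpace ℂ (Fin n)) : ℂ :=
  ∑ k : Fin n, z k * fderiv ℂ f z (EuclideanSpace.single k 1)

/-- Membership in `L^p_α`: the function `f (z) e^{-α|z|^2/2}` lies in `L^p (ℂ^n, dv)`. -/
def MemLpWeighted {n : ℕ} (p : ℝ≥0∞) (α : ℝ) (f : EuclideanSpace ℂ (Fin n) → ℂ) : Prop :=
  MemLp (fun z => f z * ((Real.exp (-(α * ‖z‖ ^ 2 / 2)) : ℝ) : ℂ)) p volume

/-- Membership in the Fock space `F^p_α`: entire, and in `L^p_α`. -/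
def MemFock {n : ℕ} (p : ℝ≥0∞) (α : ℝ) (f : EuclideanSpace ℂ (Fin n) → ℂ) : Prop :=
  Differentiable ℂ f ∧ MemLpWeighted p α f

open Pool.Agent.T2H71.Fock

lemma radialDeriv_eq {n : ℕ} (f : EuclideanSpace ℂ (Fin n) → ℂ) : radialDeriv f = RD f := by
  funext z
  unfold radialDeriv RD
  have hz : z = ∑ k : Fin n, z k • EuclideanSpace.single k (1 : ℂ) := by
    have h := (EuclideanSpace.basisFun (Fin n) ℂ).sum_repr z
    simpa using h.symm
  conv_rhs => rw [hz]
  rw [map_sum]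
  apply Finset.sum_congr rfl
  intro k _
  rw [map_smul, smul_eq_mul, ← hz]

lemma differentiable_iter {n : ℕ} {f : EuclideanSpace ℂ (Fin n) → ℂ} (hf : Differentiable ℂ f)
    (N : ℕ) : Differentiable ℂ ((RD)^[N] f) := by
  induction N with
  | zero => exact hf
  | succ m ih =>
    rw [Function.iterate_succ_apply']
    exact differentiable_RD ih

/-- the weighted function -/
noncomputable def W {n : ℕ} (α : ℝ) (k : ℕ) (g : EuclideanSpace ℂ (Fin n) → ℂ)
    (z : EuclideanSpace ℂ (Fin n)) : ℂ :=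
  g z / (1 + (‖z‖ : ℂ) ^ 2) ^ k * ((Real.exp (-(α * ‖z‖ ^ 2 / 2)) : ℝ) : ℂ)

lemma norm_W {n : ℕ} (α : ℝ) (k : ℕ) (g : EuclideanSpace ℂ (Fin n) → ℂ)
    (z : EuclideanSpace ℂ (Fin n)) : ‖W α k g z‖ = U (α / 2) k g z := by
  unfold W U wt
  have e1 : (1 + (‖z‖ : ℂ) ^ 2) = ((1 + ‖z‖ ^ 2 : ℝ) : ℂ) := by push_cast; ring
  rw [e1, norm_mul, norm_div, norm_pow, Complex.norm_real, Complex.norm_real,
    Real.norm_of_nonneg (by positivity : 0 ≤ 1 + ‖z‖ ^ 2), Real.norm_of_nonneg (Real.exp_pos _).le]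
  have e2 : -(α * ‖z‖ ^ 2 / 2) = -(α / 2) * ‖z‖ ^ 2 := by ring
  rw [e2]
  ring

lemma continuous_W {n : ℕ} (α : ℝ) (k : ℕ) {g : EuclideanSpace ℂ (Fin n) → ℂ}
    (hg : Continuous g) : Continuous (W α k g) := by
  unfold W
  have h1 : Continuous (fun z : EuclideanSpace ℂ (Fin n) => (1 + (‖z‖ : ℂ) ^ 2) ^ k) := by
    fun_prop
  have h2 : ∀ z : EuclideanSpace ℂ (Fin n), (1 + (‖z‖ : ℂ) ^ 2) ^ k ≠ 0 := by
    intro z
    apply pow_ne_zero
    have e1 : (1 + (‖z‖ : ℂ) ^ 2) = ((1 + ‖z‖ ^ 2 : ℝ) : ℂ) := by push_cast; ring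
    rw [e1, Complex.ofReal_ne_zero]
    positivity
  exact (hg.div h1 h2).mul (by fun_prop)

lemma memLp_finite_iff {n : ℕ} {p : ℝ≥0∞} (hp : 0 < p) (hpt : p ≠ ∞) (α : ℝ) (k : ℕ)
    {g : EuclideanSpace ℂ (Fin n) → ℂ} (hg : Continuous g) :
    MemLp (W α k g) p volume ↔ ∫⁻ z, Phi (α / 2) k p.toReal g z < ∞ := by
  have h1 : ∀ z, ‖W α k g z‖ₑ ^ p.toReal = Phi (α / 2) k p.toReal g z := by
    intro z
    unfold Phi
    rw [← norm_W, ofReal_norm]
  constructor
  · intro h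
    have h2 := (eLpNorm_lt_top_iff_lintegral_rpow_enorm_lt_top hp.ne' hpt).1 h.2
    rwa [lintegral_congr h1] at h2
  · intro h
    refine ⟨(continuous_W α k hg).aestronglyMeasurable, ?_⟩
    apply (eLpNorm_lt_top_iff_lintegral_rpow_enorm_lt_top hp.ne' hpt).2
    rwa [lintegral_congr h1]

lemma memLp_top_iff {n : ℕ} (α : ℝ) (k : ℕ)
    {g : EuclideanSpace ℂ (Fin n) → ℂ} (hg : Continuous g) :
    MemLp (W α k g) ∞ volume ↔ ∃ B : ℝ, ∀ z, U (α / 2) k g z ≤ B := by
  constructor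
  · intro h
    set B := (eLpNormEssSup (W α k g) volume).toReal with hB
    have hfin : eLpNormEssSup (W α k g) volume < ∞ := by
      have := h.2
      rwa [eLpNorm_exponent_top] at this
    refine ⟨B, ?_⟩
    have hae := ae_le_eLpNormEssSup (f := W α k g) (μ := volume)
    by_contra hcon
    push Not at hcon
    obtain ⟨z₀, hz₀⟩ := hcon
    have hopen : IsOpen {z | B < ‖W α k g z‖} :=
      isOpen_lt continuous_const (continuous_W α k hg).norm
    have hpos : 0 < volume {z | B < ‖W α k g z‖} :=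
      hopen.measure_pos volume ⟨z₀, by
        show B < ‖W α k g z₀‖
        rw [norm_W]; exact hz₀⟩
    have hzero : volume {z | B < ‖W α k g z‖} = 0 := by
      refine measure_mono_null ?_ hae
      intro z hz hle
      have hz' : B < ‖W α k g z‖ := hz
      have hle' : ‖W α k g z‖ₑ ≤ eLpNormEssSup (W α k g) volume := hle
      have := ENNReal.toReal_mono hfin.ne hle'
      rw [toReal_enorm] at this
      exact absurd this (not_le.2 hz')
    exact hpos.ne' hzero
  · rintro ⟨B, hB⟩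
    exact memLp_top_of_bound (continuous_W α k hg).aestronglyMeasurable B
      (Eventually.of_forall fun z => by rw [norm_W]; exact hB z)

lemma step {n : ℕ} {p : ℝ≥0∞} (hp : 0 < p) {α : ℝ} (hα : 0 < α) (k : ℕ)
    {g : EuclideanSpace ℂ (Fin n) → ℂ} (hg : Differentiable ℂ g) :
    MemLp (W α k g) p volume ↔ MemLp (W α (k + 1) (RD g)) p volume := by
  have ha : 0 < α / 2 := by positivity
  have hR : Continuous (RD g) := (differentiable_RD hg).continuous
  by_cases hpt : p = ∞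
  · subst hpt
    rw [memLp_top_iff α k hg.continuous, memLp_top_iff α (k + 1) hR]
    exact ⟨fwd_top hg ha k, back_top hg ha k⟩
  · have hp0 : 0 < p.toReal := ENNReal.toReal_pos hp.ne' hpt
    rw [memLp_finite_iff hp hpt α k hg.continuous, memLp_finite_iff hp hpt α (k + 1) hR]
    exact ⟨fwd_p hg ha k hp0, back_p hg ha k hp0⟩

lemma all_steps {n : ℕ} {p : ℝ≥0∞} (hp : 0 < p) {α : ℝ} (hα : 0 < α) (N : ℕ)
    {f : EuclideanSpace ℂ (Fin n) → ℂ} (hf : Differentiable ℂ f) :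
    MemLp (W α 0 f) p volume ↔ MemLp (W α N ((RD)^[N] f)) p volume := by
  induction N with
  | zero => exact Iff.rfl
  | succ m ih =>
    rw [ih, step hp hα m (differentiable_iter hf m), Function.iterate_succ_apply']

/-- **Radial derivative characterisation of Fock spaces.** For every `n ≥ 1`, `0 < p ≤ ∞`,
`α > 0`, `N ≥ 1` and every entire function `f` on `ℂ^n`, the function `f` belongs to the Fock
space `F^p_α` if and only if `R^N f (z) / (1 + |z|^2)^N` belongs to `L^p_α`. -/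
theorem result : ∀ n : ℕ, 1 ≤ n → ∀ p : ℝ≥0∞, 0 < p → ∀ α : ℝ, 0 < α → ∀ N : ℕ, 1 ≤ N →
    ∀ f : EuclideanSpace ℂ (Fin n) → ℂ, Differentiable ℂ f →
      (MemFock p α f ↔
        MemLpWeighted p α (fun z => (radialDeriv^[N] f) z / (1 + (‖z‖ : ℂ) ^ 2) ^ N)) := by
  intro n _ p hp α hα N _ f hf
  have h := all_steps hp hα N hf
  have e0 : MemLpWeighted p α f ↔ MemLp (W α 0 f) p volume := by
    unfold MemLpWeighted W
    simp only [pow_zero, div_one]
  have e1 : (radialDeriv : (EuclideanSpace ℂ (Fin n) → ℂ) → _) = RD := by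
    funext g
    exact radialDeriv_eq g
  have e2 : MemLpWeighted p α (fun z => (radialDeriv^[N] f) z / (1 + (‖z‖ : ℂ) ^ 2) ^ N) ↔
      MemLp (W α N ((RD)^[N] f)) p volume := by
    rw [e1]
    unfold MemLpWeighted W
    exact Iff.rfl
  rw [e2, ← h, ← e0]
  exact ⟨fun h => h.2, fun h => ⟨hf, h⟩⟩

end Pool.Agent.Results.MP_bbe01f_an.RadialDerivativeFock
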